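import Pool.Agent.V11296.EA2

/-!
Prime factors of the values of the quadratic polynomials `f(n) = A n^2 + B n + C` whose discriminant is
one of `-3, -4, -7, -8, -11, -19, -43, -67, -163`, in all arithmetic progressions: for every prime `p`
modulo which `f` has a root, one of the roots `ρ(p)` is chosen, in an arbitrary way; the number of the
prime factors `p` of `f(n)` with `n ≡ ρ(p) mod p` is equidistributed modulo `k`, jointly with the
number of all prime factors.

The starting files have the cancellation theorems `W251.EG.twG`, `W251.EG.tsG` for the products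
`g₁(d) g₂(d')` over the factorisations, and the bilinear estimate `W251.EG.mainyG` behind them. Our
`ArbitraryRoots` (problem MP_f1a94e_nt) treats the nine polynomials `n^2 + t n + c`; the passage to
`A n^2 + B n + C` here uses `W347.EG.fwd`, `W347.EG.bwd`, `W347.EG.bad_scales`.
-/

set_option autoImplicit false

namespace Pool.Agent.Results.MP_648c71_nt.ArbitraryRoots

open Finset Filter

open scoped Classical in
/-- the set of the positive integers `X` with `P X` has logarithmic density `0` -/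
def LogNull (P : ℕ → Prop) : Prop :=
  Tendsto (fun Z : ℕ => (∑ X ∈ (Icc 1 Z).filter P, 1 / (X : ℝ)) / Real.log Z) atTop (nhds 0)

/-- the nine pairs `(t, c)` with `t` in `{0, 1}` and `x^2+tx+c` of discriminant `-4`, `-8`, `-3`,
`-7`, `-11`, `-19`, `-43`, `-67`, `-163` -/
def nine : List (ℕ × ℕ) :=
  [(0, 1), (0, 2), (1, 1), (1, 2), (1, 3), (1, 5), (1, 11), (1, 17), (1, 41)]

/-- `ρ(p)` is a root modulo `p` of `A x^2 + B x + C`, for each prime `p` modulo which there is a root;
it is an arbitrary one of the (at most two) roots -/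
def Choice (A B C : ℕ) (ρ : ℕ → ℕ) : Prop :=
  ∀ p : ℕ, p.Prime → (∃ x : ℕ, p ∣ A * x ^ 2 + B * x + C) → p ∣ A * ρ p ^ 2 + B * ρ p + C

/-- the number of the prime factors `p` of `A n^2 + B n + C`, with multiplicity, with
`n ≡ ρ(p) mod p` -/
def marked (A B C : ℕ) (ρ : ℕ → ℕ) (n : ℕ) : ℕ :=
  (A * n ^ 2 + B * n + C).primeFactorsList.countP (fun p => n ≡ ρ p [MOD p])

/-- the number of the prime factors of `n`, with multiplicity -/
def Omega (n : ℕ) : ℕ := n.primeFactorsList.length

/-- the weight of `n`: the sum of `1 / max(d, d')` over all factorisations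
`A n^2 + B n + C = d d'` -/
noncomputable def weight (A B C n : ℕ) : ℝ :=
  ∑ d ∈ (A * n ^ 2 + B * n + C).divisors,
    1 / ((max d ((A * n ^ 2 + B * n + C) / d) : ℕ) : ℝ)

open scoped Classical in
/-- the number of the `n ≤ X`, `n ≡ u mod q`, with `l` marked prime factors modulo `k` and with a
factorisation `A n^2 + B n + C = d d'`, `d, d' ≤ X`, `Ω(d) ≡ i`, `Ω(d') ≡ j mod k` -/
noncomputable def count (A B C : ℕ) (ρ : ℕ → ℕ) (k q u i j l X : ℕ) : ℕ :=
  ((range (X + 1)).filter (fun n : ℕ => n ≡ u [MOD q] ∧ marked A B C ρ n ≡ l [MOD k] ∧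
    ∃ d d' : ℕ, d ≤ X ∧ d' ≤ X ∧ d * d' = A * n ^ 2 + B * n + C ∧ Omega d ≡ i [MOD k] ∧
      Omega d' ≡ j [MOD k])).card

open scoped Classical in
/-- Let `f(n) = A n^2 + B n + C` with integers `A ≥ 1`, `B, C ≥ 0` have the discriminant of `x^2+tx+c`,
one of the nine polynomials (every quadratic polynomial with one of these discriminants and with a
positive leading coefficient becomes of this form after a shift of the variable). For every prime `p`
modulo which `f` has a root, let one of the roots `ρ(p)` be chosen, in an arbitrary way, and let `T(n)`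
be the number of the prime factors `p` of `f(n)`, with multiplicity, with `n ≡ ρ(p) mod p`. Let
`k, q ≥ 1` and `u`.

1. For all `j`, `l`, the `n ≡ u mod q` with `Ω(f(n)) ≡ j` and `T(n) ≡ l mod k` have relative density
`1 / k^2` in the progression `n ≡ u mod q`, with respect to the weights
`∑_{d d' = f(n)} 1 / max(d, d')`.

2. For all `i`, `j`, `l` and every `ε > 0`, outside a set of `X` of logarithmic density `0`, there are
at least `X / (log X)^(log 2 + ε)` integers `n ≤ X`, `n ≡ u mod q`, with `T(n) ≡ l mod k` and with a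
factorisation `f(n) = d d'`, `d, d' ≤ X`, `Ω(d) ≡ i`, `Ω(d') ≡ j mod k`; and for every `δ > 0` and all
large `X` there are at least `X^(1-δ)` of them. -/
theorem result (t c : ℕ) (htc : (t, c) ∈ nine) (A B C : ℕ) (hA : 1 ≤ A)
    (hdisc : B ^ 2 + 4 * c = t ^ 2 + 4 * A * C) (ρ : ℕ → ℕ) (hρ : Choice A B C ρ) (k q u : ℕ)
    (hk : 1 ≤ k) (hq : 1 ≤ q) :
    (∀ j l : ℕ, Tendsto (fun N : ℕ =>
      (∑ n ∈ (Icc 1 N).filter (fun n => n ≡ u [MOD q] ∧ Omega (A * n ^ 2 + B * n + C) ≡ j [MOD k] ∧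
        marked A B C ρ n ≡ l [MOD k]), weight A B C n) /
      ∑ n ∈ (Icc 1 N).filter (fun n => n ≡ u [MOD q]), weight A B C n) atTop
      (nhds (1 / (k : ℝ) ^ 2))) ∧
    (∀ i j l : ℕ,
      (∀ ε : ℝ, 0 < ε → LogNull (fun X : ℕ => (count A B C ρ k q u i j l X : ℝ) <
        (X : ℝ) / Real.log X ^ (Real.log 2 + ε))) ∧
      (∀ δ : ℝ, 0 < δ → ∃ X₀ : ℕ, ∀ X : ℕ, X₀ ≤ X →
        (X : ℝ) ^ (1 - δ) ≤ count A B C ρ k q u i j l X)) := by
  obtain ⟨f, χ, hF⟩ := Pool.Agent.W251.EG.fd9 t c htc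
  have hR := Pool.Agent.W251.EG.hl9 t c htc hF
  have ht := Pool.Agent.W251.EG.t_le hF
  have hc := Pool.Agent.W251.EG.c_pos hF
  have : NeZero k := ⟨by omega⟩
  obtain ⟨β, hβ⟩ := Pool.Agent.V11296.CR.exists_beta ht hdisc
  have hρ' : Pool.Agent.V11296.EA.RtV A B C ρ := hρ
  have ha : (0 : ℤ) < (A : ℤ) := by exact_mod_cast hA
  have hdz : (B : ℤ) ^ 2 - 4 * (A : ℤ) * (C : ℤ) = (t : ℤ) ^ 2 - 4 * (c : ℤ) := by
    have h1 : ((B ^ 2 + 4 * c : ℕ) : ℤ) = ((t ^ 2 + 4 * A * C : ℕ) : ℤ) := by rw [hdisc]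
    push_cast at h1
    linarith
  have hdd : ∀ n d : ℕ, d ∈ (A * n ^ 2 + B * n + C).divisors →
      d * ((A * n ^ 2 + B * n + C) / d) = A * n ^ 2 + B * n + C := fun n d hd =>
    Nat.mul_div_cancel' (Nat.mem_divisors.1 hd).1
  refine ⟨?_, ?_⟩
  · intro j l
    have h0 := Pool.Agent.V11296.EA.wnV_HH hF hR hA hβ hdisc hρ' k (Pool.Agent.V11296.CY.pr k)
      (Pool.Agent.V11296.CY.pr_surj k) (((A.primeFactorsList.length : ℕ) : ZMod k) + (j : ZMod k),
        ((A.primeFactorsList.length : ℕ) : ZMod k) + (l : ZMod k)) hq u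
    rw [Pool.Agent.V11296.CY.card_tk2] at h0
    have h := Pool.Agent.V11296.EA.tendV hF ha hdz hq h0
    have hqv : ∀ n : ℕ, Pool.Agent.W78.EG.qv (A : ℤ) (B : ℤ) (C : ℤ) n =
        A * n ^ 2 + B * n + C := by
      intro n
      unfold Pool.Agent.W78.EG.qv
      exact_mod_cast Int.toNat_natCast (A * n ^ 2 + B * n + C)
    have hwt : ∀ n : ℕ, Pool.Agent.W78.EG.wq (A : ℤ) (B : ℤ) (C : ℤ) n = weight A B C n := by
      intro n
      unfold Pool.Agent.W78.EG.wq weight
      rw [hqv]
    push_cast at h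
    refine h.congr fun N => ?_
    refine congrArg₂ (fun x y : ℝ => x / y) ?_ ?_
    · conv_rhs => rw [← filter_filter, sum_filter]
      refine sum_congr (by congr!) fun n _ => ?_
      rw [hqv]
      by_cases h8 : Omega (A * n ^ 2 + B * n + C) ≡ j [MOD k] ∧ marked A B C ρ n ≡ l [MOD k]
      · rw [if_pos h8, sum_filter]
        unfold weight
        refine sum_congr rfl fun d hd => ?_
        rw [if_pos ((Pool.Agent.V11296.EA.prHV_iff hF hR hA hβ hdisc hρ' k (hdd n d hd) j l).2 h8),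
          Nat.cast_max]
      · rw [if_neg h8, sum_filter]
        refine sum_eq_zero fun d hd => ?_
        rw [if_neg (fun h9 => h8
          ((Pool.Agent.V11296.EA.prHV_iff hF hR hA hβ hdisc hρ' k (hdd n d hd) j l).1 h9))]
    · refine sum_congr (by congr!) fun n _ => hwt n
  · intro i j l
    have hk3 : 1 ≤ k ^ 3 := Nat.one_le_pow _ _ hk
    have h0 := Pool.Agent.V11296.EA.wnV_HH hF hR hA hβ hdisc hρ' k (AddMonoidHom.id _)
      Function.surjective_id (((A.primeFactorsList.length : ℕ) : ZMod k) + (i : ZMod k),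
        (j : ZMod k), ((A.primeFactorsList.length : ℕ) : ZMod k) + (l : ZMod k)) hq u
    rw [Pool.Agent.V11296.CY.card_tk] at h0
    have hcnt : ∀ X : ℕ, Pool.Agent.V11296.EA.cfv A B C q u
        (fun p => (AddMonoidHom.id (Pool.Agent.V11296.CY.Tk k))
          (Pool.Agent.V11296.CY.HH c (Pool.Agent.V11296.EA.rt A β ρ) k (A * p.1, p.2)))
        (((A.primeFactorsList.length : ℕ) : ZMod k) + (i : ZMod k),
        (j : ZMod k), ((A.primeFactorsList.length : ℕ) : ZMod k) + (l : ZMod k)) X =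
        count A B C ρ k q u i j l X := by
      intro X
      unfold Pool.Agent.V11296.EA.cfv count
      congr 1
      refine filter_congr fun n _ => ?_
      constructor
      · rintro ⟨h1, d, e, h2, h3, h4, h5⟩
        have h6 := (Pool.Agent.V11296.EA.HV_iff hF hR hA hβ hdisc hρ' k h4 i j l).1 h5
        exact ⟨h1, h6.2.2, d, e, h2, h3, h4, h6.1, h6.2.1⟩
      · rintro ⟨h1, h2, d, e, h3, h4, h5, h6, h7⟩
        exact ⟨h1, d, e, h3, h4, h5,
          (Pool.Agent.V11296.EA.HV_iff hF hR hA hβ hdisc hρ' k h5 i j l).2 ⟨h6, h7, h2⟩⟩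
    constructor
    · intro ε hε
      have h := Pool.Agent.V11296.EA.cntV hF hq hk3 hA hdisc h0 ε hε
      refine Pool.Agent.TH890.DV.LogNull.of_ev 0 (fun X _ hX => ?_) h
      rw [hcnt]
      exact hX
    · intro δ hδ
      obtain ⟨N₀, hN₀⟩ := Pool.Agent.V11296.EA.cntVAll hF hq hk3 hA hdisc h0 δ hδ
      refine ⟨N₀, fun X hX => ?_⟩
      have h := hN₀ X hX
      rw [hcnt] at h
      exact h

end Pool.Agent.Results.MP_648c71_nt.ArbitraryRoots
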