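import Pool.Agent.V11296.CX3

/-!
The joint distribution of the number of the prime factors of `f(n)` modulo `k` and of the parities of
the numbers of the prime factors of `f(n)` in the residue classes modulo `m`, for all positive
quadratic polynomials `f` whose discriminant is one of `-3, -4, -7, -8, -11, -19, -43, -67, -163`, in
all arithmetic progressions, with the weights `w(n) = ∑_{d d' = f(n)} 1/max(d,d')`.

The starting file `QuadraticLogCancellation` of this problem has the number of the prime factors
modulo `k` alone (`m = 1`). The cancellation theorem for `g₁(d) g₂(d')` over the factorisations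
(`W251.EG.twG`), the criterion for aperiodicity `W251.EG.apdE` and the comparison of weights
(`W293.EG.compare`, `W293.EG.scale_sum`) used here are those of the starting files.
-/

set_option autoImplicit false

namespace Pool.Agent.Results.MP_648c71_nt.EquidistributedPatterns

open Finset Filter

/-- the nine pairs `(t, c)` with `t` in `{0, 1}` and `x^2+tx+c` of discriminant `-4`, `-8`, `-3`,
`-7`, `-11`, `-19`, `-43`, `-67`, `-163` -/
def nine : List (ℕ × ℕ) :=
  [(0, 1), (0, 2), (1, 1), (1, 2), (1, 3), (1, 5), (1, 11), (1, 17), (1, 41)]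

/-- the value `f(n) = a n^2 + b n + e` as a natural number -/
def val (a b e : ℤ) (n : ℕ) : ℕ := (a * (n : ℤ) ^ 2 + b * n + e).toNat

/-- the weight `w(n) = ∑_{d | f(n)} 1/max(d, f(n)/d)` -/
noncomputable def w (a b e : ℤ) (n : ℕ) : ℝ :=
  ∑ d ∈ Nat.divisors (val a b e n), 1 / ((max d (val a b e n / d) : ℕ) : ℝ)

open scoped Classical in
/-- the number of the prime factors of `N` in a residue class modulo `m`, counted with
multiplicity -/
noncomputable def factorsIn (m N : ℕ) (b : ZMod m) : ℕ :=
  N.primeFactorsList.countP (fun p : ℕ => (p : ZMod m) = b)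

open scoped Classical in
/-- the set of the residue classes modulo `m`, prime to `m`, which contain an odd number of the
prime factors of `N`, counted with multiplicity -/
noncomputable def oddClasses (m : ℕ) [NeZero m] (N : ℕ) : Finset (ZMod m)ˣ :=
  univ.filter (fun b => Odd (factorsIn m N b))

/-- the number of the prime factors of `N` (with multiplicity) is `≡ J mod k`, and `T` is the set of
the classes modulo `m`, prime to `m`, which contain an odd number of them -/
def HasPattern (m k J : ℕ) [NeZero m] (T : Finset (ZMod m)ˣ) (N : ℕ) : Prop :=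
  N.primeFactorsList.length ≡ J [MOD k] ∧ oddClasses m N = T

/-- `b` is the residue class of a value `x^2+txy+cy^2` prime to `m` -/
def IsNorm (t c m : ℕ) (b : ZMod m) : Prop := ∃ x y : ℤ,
  IsCoprime (x ^ 2 + t * x * y + c * y ^ 2) (m : ℤ) ∧
  ((x ^ 2 + t * x * y + c * y ^ 2 : ℤ) : ZMod m) = b

/-- `T` consists of classes of norms, `|T| ≡ J mod 2` if `k` is even, and
`v ≡ s^2 ∏_{b ∈ T} b mod m` for the class `s` of a norm -/
def Admissible (t c m k v J : ℕ) (T : Finset (ZMod m)ˣ) : Prop :=
  (∀ b ∈ T, IsNorm t c m b) ∧ (2 ∣ k → T.card ≡ J [MOD 2]) ∧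
  ∃ s : ZMod m, IsNorm t c m s ∧ (v : ZMod m) = s ^ 2 * ∏ b ∈ T, (b : ZMod m)

open scoped Classical in
/-- the admissible pairs `(J, T)`, `0 ≤ J < k` -/
noncomputable def patterns (t c m k v : ℕ) [NeZero m] : Finset (ℕ × Finset (ZMod m)ˣ) :=
  (range k ×ˢ (univ : Finset (Finset (ZMod m)ˣ))).filter (fun x => Admissible t c m k v x.1 x.2)

open scoped Classical in
/-- Let `f = a x^2 + b x + e`, `a > 0`, have the discriminant of `x^2+tx+c`, one of the nine
polynomials, let `m, k, q ≥ 1`, let `m` divide `q`, and let `f(u)` be prime to `m`. Let `J` be an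
integer and `T` a set of residue classes modulo `m`, prime to `m`.

1. If for some `n ≡ u mod q` the number of the prime factors of `f(n)` is `≡ J mod k` and `T` is the
  set of the classes prime to `m` which contain an odd number of them, then `(J, T)` is admissible:
  `T` consists of classes of norms, `|T| ≡ J mod 2` if `k` is even, and
  `f(u) ≡ s^2 ∏_{b ∈ T} b mod m` for the class `s` of a norm.
2. The admissible patterns are equidistributed: let `R` be the number of the admissible pairs
  `(J, T)`, `0 ≤ J < k`. If `(J, T)` is admissible, then the sum of `w(n)` over the `n ≤ N`,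
  `n ≡ u mod q`, with this pattern is `(1/R + o(1))` times the sum of `w(n)` over the `n ≤ N`,
  `n ≡ u mod q`.
3. The latter sum is at least `c₁ log N` for some `c₁ > 0` and all large `N`. -/
theorem result (t c : ℕ) (htc : (t, c) ∈ nine) (a b e : ℤ) (ha : 0 < a)
    (hdisc : b ^ 2 - 4 * a * e = (t : ℤ) ^ 2 - 4 * (c : ℤ)) (m k q u : ℕ) [NeZero m] (hk : 1 ≤ k)
    (hq : 1 ≤ q) (hmq : m ∣ q) (hu : (val a b e u).Coprime m) (J : ℕ) (T : Finset (ZMod m)ˣ) :
    (∀ n : ℕ, n ≡ u [MOD q] → HasPattern m k J T (val a b e n) →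
      Admissible t c m k (val a b e u) J T) ∧
    (Admissible t c m k (val a b e u) J T → Tendsto (fun N : ℕ =>
      (∑ n ∈ (Icc 1 N).filter (fun n => n ≡ u [MOD q] ∧ HasPattern m k J T (val a b e n)),
        w a b e n) / ∑ n ∈ (Icc 1 N).filter (fun n => n ≡ u [MOD q]), w a b e n) atTop
      (nhds (1 / ((patterns t c m k (val a b e u)).card : ℝ)))) ∧
    ∃ c₁ : ℝ, 0 < c₁ ∧ ∃ N₀ : ℕ, ∀ N : ℕ, N₀ ≤ N →
      c₁ * Real.log N ≤ ∑ n ∈ (Icc 1 N).filter (fun n => n ≡ u [MOD q]), w a b e n := by
  obtain ⟨_, χ, hF⟩ := Pool.Agent.W251.EG.fd9 t c htc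
  have hk0 : NeZero k := ⟨by omega⟩
  refine ⟨fun n hn hp => ?_, fun hA => ?_, ?_⟩
  · exact Pool.Agent.V11296.CX.nec_f hF ha hdisc hmq hu T hn hp.1 hp.2
  · have h1 := Pool.Agent.V11296.CX.tendK hF ha hdisc hq hmq hu T hA
    rw [Pool.Agent.V11296.CX.card_AP hF ha hdisc hq hmq hu] at h1
    have h2 : (Pool.Agent.V11296.CX.AP t c m k (val a b e u)) =
        patterns t c m k (val a b e u) := by
      ext x
      unfold Pool.Agent.V11296.CX.AP patterns
      rw [mem_filter, mem_filter]
      rfl
    have h3 : ∀ N : ℕ, Pool.Agent.V11296.CX.SK a b e m k q u (J, T) N =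
        ∑ n ∈ (Icc 1 N).filter (fun n => n ≡ u [MOD q] ∧ HasPattern m k J T (val a b e n)),
          w a b e n := by
      intro N
      unfold Pool.Agent.V11296.CX.SK
      refine sum_congr ?_ fun _ _ => rfl
      ext n
      rw [mem_filter, mem_filter]
      rfl
    have h4 : Pool.Agent.W78.EG.qv a b e u = val a b e u := rfl
    rw [h4, h2] at h1
    refine h1.congr fun N => ?_
    rw [h3]
    rfl
  · exact Pool.Agent.W78.EG.finlow hF (Pool.Agent.W251.EG.lowqG hF)
      (Pool.Agent.W251.EG.scntG hF) a b e ha hdisc q u hq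

end Pool.Agent.Results.MP_648c71_nt.EquidistributedPatterns
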