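import Pool.Agent.V11296.EB2
import Pool.Agent.V11296.CX6

/-!
The Liouville function at the squarefree values of the nine quadratic polynomials `F(n) = n^2 + t n + c`,
`t` in `{0, 1}`, of discriminant `-3, -4, -7, -8, -11, -19, -43, -67, -163`, `n` in an arithmetic
progression: exact densities, and many examples, of the patterns formed by the numbers of the prime
factors of `d` and `d'` modulo `k`, where `F(n) = d d'`, and the parities of the numbers of the prime
factors of `F(n)` in the residue classes modulo `m`.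

The starting files have the case `m = 1`, `k = 2` (Möbius function) in other problems
(MP_892e4c_nt.MoebiusAlmostAllScales), the cancellation theorem for `g₁(d) g₂(d')` (`W251.EG.tsG`), the
criterion for aperiodicity `W251.EG.apdE`, the lower bound for the number of squarefree values
`W251.EG.sps9` and the passage from the pairs to the integers `TH890.DV.cnt_core`. Our
`EquidistributedPatterns` of this problem is about all values, with weights.
-/

set_option autoImplicit false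

namespace Pool.Agent.Results.MP_648c71_nt.SquarefreeClassPatterns

open Finset Filter

open scoped Classical in
/-- the set of the positive integers `X` with `P X` has logarithmic density `0` -/
def LogNull (P : ℕ → Prop) : Prop :=
  Tendsto (fun Z : ℕ => (∑ X ∈ (Icc 1 Z).filter P, 1 / (X : ℝ)) / Real.log Z) atTop (nhds 0)

/-- the nine pairs `(t, c)` with `t` in `{0, 1}` and `x^2+tx+c` of discriminant `-4`, `-8`, `-3`,
`-7`, `-11`, `-19`, `-43`, `-67`, `-163` -/
def nine : List (ℕ × ℕ) :=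
  [(0, 1), (0, 2), (1, 1), (1, 2), (1, 3), (1, 5), (1, 11), (1, 17), (1, 41)]

open scoped Classical in
/-- the number of the prime factors of `N` in a residue class modulo `m`, counted with
multiplicity -/
noncomputable def factorsIn (m N : ℕ) (b : ZMod m) : ℕ :=
  N.primeFactorsList.countP (fun p : ℕ => (p : ZMod m) = b)

open scoped Classical in
/-- the set of the residue classes modulo `m`, prime to `m`, which contain an odd number of the
prime factors of `N`, counted with multiplicity -/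
noncomputable def oddClasses (m : ℕ) [NeZero m] (N : ℕ) : Finset (ZMod m)ˣ :=
  univ.filter (fun b => Odd (factorsIn m N b))

/-- the number of the prime factors of `d` (with multiplicity) is `≡ i mod k`, that of `d'` is
`≡ j mod k`, and `T` is the set of the classes modulo `m`, prime to `m`, which contain an odd number
of the prime factors of `d d'` -/
def PairPattern (m k i j : ℕ) [NeZero m] (T : Finset (ZMod m)ˣ) (d d' : ℕ) : Prop :=
  d.primeFactorsList.length ≡ i [MOD k] ∧ d'.primeFactorsList.length ≡ j [MOD k] ∧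
    oddClasses m (d * d') = T

/-- `b` is the residue class of a value `x^2+txy+cy^2` prime to `m` -/
def IsNorm (t c m : ℕ) (b : ZMod m) : Prop := ∃ x y : ℤ,
  IsCoprime (x ^ 2 + t * x * y + c * y ^ 2) (m : ℤ) ∧
  ((x ^ 2 + t * x * y + c * y ^ 2 : ℤ) : ZMod m) = b

/-- `T` consists of classes of norms, `|T| ≡ i + j mod 2` if `k` is even, and
`v ≡ s^2 ∏_{b ∈ T} b mod m` for the class `s` of a norm -/
def Admissible (t c m k v i j : ℕ) (T : Finset (ZMod m)ˣ) : Prop :=
  (∀ b ∈ T, IsNorm t c m b) ∧ (2 ∣ k → T.card ≡ i + j [MOD 2]) ∧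
  ∃ s : ZMod m, IsNorm t c m s ∧ (v : ZMod m) = s ^ 2 * ∏ b ∈ T, (b : ZMod m)

open scoped Classical in
/-- the number `R` of the admissible triples `(i, j, T)`, `0 ≤ i, j < k` -/
noncomputable def triples (t c m k v : ℕ) [NeZero m] : ℕ :=
  ((range k ×ˢ range k ×ˢ (univ : Finset (Finset (ZMod m)ˣ))).filter
    (fun x => Admissible t c m k v x.1 x.2.1 x.2.2)).card

open scoped Classical in
/-- the pairs `(d, d')` of positive integers with `s₁ X < d ≤ s₂ X`, `s₃ X < d' ≤ s₄ X`,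
`d ≡ r mod q` and `d d' = n^2 + t n + c` squarefree for some `n ≥ 0`, `n + t > 0`, `n ≡ u mod q` -/
noncomputable def pairs (t c q u r : ℕ) (s₁ s₂ s₃ s₄ : ℝ) (X : ℕ) : Finset (ℕ × ℕ) :=
  ((Icc 1 X) ×ˢ (Icc 1 X)).filter (fun p => s₁ * X < (p.1 : ℝ) ∧ (p.1 : ℝ) ≤ s₂ * X ∧
    s₃ * X < (p.2 : ℝ) ∧ (p.2 : ℝ) ≤ s₄ * X ∧ p.1 ≡ r [MOD q] ∧ Squarefree (p.1 * p.2) ∧
    ∃ n : ℕ, 1 ≤ n + t ∧ p.1 * p.2 = n ^ 2 + t * n + c ∧ n ≡ u [MOD q])

open scoped Classical in
/-- the number of the integers `0 ≤ n ≤ X`, `n ≡ u mod q`, such that `n^2 + t n + c` is squarefree and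
`n^2 + t n + c = d d'` with `d, d' ≤ X`, with the pattern given by `i`, `j`, `T` -/
noncomputable def count (t c q u m k i j : ℕ) [NeZero m] (T : Finset (ZMod m)ˣ) (X : ℕ) : ℕ :=
  ((range (X + 1)).filter (fun n : ℕ => n ≡ u [MOD q] ∧ Squarefree (n ^ 2 + t * n + c) ∧
    ∃ d d' : ℕ, d ≤ X ∧ d' ≤ X ∧ d * d' = n ^ 2 + t * n + c ∧ PairPattern m k i j T d d')).card

open scoped Classical in
/-- Let `F(n) = n^2 + t n + c` be one of the nine polynomials, `m, k, q ≥ 1`, let `m` divide `q`, let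
`F(u)` be prime to `m`, and `l^2 ∤ F(u)` for all primes `l` with `l^2 ∣ q`. Let `i`, `j` be integers and
`T` a set of residue classes modulo `m`, prime to `m`.

1. If some `F(n) = d d'`, `n ≡ u mod q`, has `Ω(d) ≡ i`, `Ω(d') ≡ j mod k` and `T` is the set of the
  classes prime to `m` which contain an odd number of the prime factors of `F(n)`, then `(i, j, T)` is
  admissible.

2. At least `c₁ X` pairs of integers `d, d' ≤ X` have `d d' = F(n)` squarefree with `n ≡ u mod q`, for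
  some `c₁ > 0` and all large `X`.

Let `(i, j, T)` be admissible and let `R` be the number of the admissible triples with
`0 ≤ i, j < k`.

3. For all windows, all `r` and almost all `X` the number of the elements of `pairs` with the pattern
  `(i, j, T)` is `1/R` times the number of the elements of `pairs`, up to `ε X`, for every `ε > 0`.

4. For every `ε > 0` and almost all `X` there are at least `X / (log X)^(log 2 + ε)` integers
  `n ≤ X`, `n ≡ u mod q`, with `F(n)` squarefree and with a factorisation `F(n) = d d'`, `d, d' ≤ X`,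
  with the pattern `(i, j, T)`; for every `δ > 0` and all large `X` there are at least `X^(1-δ)` of
  them. -/
theorem result (t c : ℕ) (htc : (t, c) ∈ nine) (m k q u : ℕ) [NeZero m] (hk : 1 ≤ k) (hq : 1 ≤ q)
    (hmq : m ∣ q) (hu : (u ^ 2 + t * u + c).Coprime m)
    (hqu : ∀ l : ℕ, l.Prime → l ^ 2 ∣ q → ¬ l ^ 2 ∣ u ^ 2 + t * u + c) (i j : ℕ)
    (T : Finset (ZMod m)ˣ) :
    (∀ n d d' : ℕ, n ≡ u [MOD q] → d * d' = n ^ 2 + t * n + c → PairPattern m k i j T d d' →
      Admissible t c m k (u ^ 2 + t * u + c) i j T) ∧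
    (∃ c₁ : ℝ, 0 < c₁ ∧ ∃ X₀ : ℕ, ∀ X : ℕ, X₀ ≤ X → c₁ * X ≤
      ((((Icc 1 X) ×ˢ (Icc 1 X)).filter (fun p : ℕ × ℕ => Squarefree (p.1 * p.2) ∧
        ∃ n : ℕ, p.1 * p.2 = n ^ 2 + t * n + c ∧ n ≡ u [MOD q])).card : ℝ)) ∧
    (Admissible t c m k (u ^ 2 + t * u + c) i j T →
      (∀ (r : ℕ) (s₁ s₂ s₃ s₄ : ℝ), 0 ≤ s₁ → s₁ < s₂ → s₂ ≤ 1 → 0 ≤ s₃ → s₃ < s₄ → s₄ ≤ 1 →
        ∀ ε : ℝ, 0 < ε → LogNull (fun X => ε * X <
          |(((pairs t c q u r s₁ s₂ s₃ s₄ X).filter
            (fun p => PairPattern m k i j T p.1 p.2)).card : ℝ) -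
            1 / (triples t c m k (u ^ 2 + t * u + c) : ℝ) *
              ((pairs t c q u r s₁ s₂ s₃ s₄ X).card : ℝ)|)) ∧
      (∀ ε : ℝ, 0 < ε → LogNull (fun X : ℕ => (count t c q u m k i j T X : ℝ) <
        (X : ℝ) / Real.log X ^ (Real.log 2 + ε))) ∧
      (∀ δ : ℝ, 0 < δ → ∃ X₀ : ℕ, ∀ X : ℕ, X₀ ≤ X →
        (X : ℝ) ^ (1 - δ) ≤ count t c q u m k i j T X)) := by
  obtain ⟨f, χ, hF⟩ := Pool.Agent.W251.EG.fd9 t c htc
  have hS := Pool.Agent.W251.EG.sps9 t c htc
  have hk0 : NeZero k := ⟨by omega⟩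
  have hm1 : 1 ≤ m := Nat.one_le_iff_ne_zero.2 (NeZero.ne m)
  have hc1 := Pool.Agent.W251.EG.c_pos hF
  have hdisc : (t : ℤ) ^ 2 - 4 * 1 * (c : ℤ) = (t : ℤ) ^ 2 - 4 * (c : ℤ) := by ring
  have hqv : ∀ n : ℕ, Pool.Agent.W78.EG.qv (1 : ℤ) (t : ℤ) (c : ℤ) n = n ^ 2 + t * n + c := by
    intro n
    have h1 := Pool.Agent.V11296.CX.qv_cast hF one_pos hdisc n
    rw [one_mul] at h1
    exact_mod_cast h1
  have hu' : (Pool.Agent.W78.EG.qv (1 : ℤ) (t : ℤ) (c : ℤ) u).Coprime m := by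
    rw [hqv]
    exact hu
  have hAdm : ∀ (z x y : ℕ) (T' : Finset (ZMod m)ˣ),
      Pool.Agent.V11296.CQ.Admn t c m k z (x + y) T' ↔ Admissible t c m k z x y T' := by
    intro z x y T'
    exact Iff.rfl
  refine ⟨fun n d d' hn hdd hp => ?_, ?_, fun hAd => ?_⟩
  · have h1 := Pool.Agent.V11296.CX.nec_pair hF one_pos hdisc hmq hu' T hn
      (by rw [one_mul]; exact_mod_cast hdd) hp.1 hp.2.1 hp.2.2
    rw [hqv] at h1
    exact (hAdm _ _ _ _).1 h1
  · obtain ⟨c₁, hc₁, X₀, h1⟩ := Pool.Agent.V11296.EB.lowPS hS hq u hqu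
    refine ⟨c₁, hc₁, X₀, fun X hX => (h1 X hX).trans (Nat.cast_le.2 (card_le_card fun p hp => ?_))⟩
    rw [mem_filter, Pool.Agent.V11296.CY.mem_PPn] at hp
    obtain ⟨⟨g1, g2, g3, g4, g5⟩, g7⟩ := hp
    rw [mem_filter, mem_product, mem_Icc, mem_Icc]
    exact ⟨⟨⟨g1, g2⟩, g3, g4⟩, g7, g5⟩
  · have hAd' : Pool.Agent.V11296.CQ.Admn t c m k
        (Pool.Agent.W78.EG.qv (1 : ℤ) (t : ℤ) (c : ℤ) u) (i + j) T := by
      rw [hqv]
      exact (hAdm _ _ _ _).2 hAd
    have hg := Pool.Agent.V11296.CW.gpk t c m k hm1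
    have hal := Pool.Agent.V11296.CX.alf_pair hF hm1 hk one_pos hdisc hmq hu' T hAd'
    have hcard := Pool.Agent.V11296.CX.card_AT (k := k) hF one_pos hdisc hq hmq hu'
    have hR : ((Pool.Agent.V11296.CX.AT t c m k
        (Pool.Agent.W78.EG.qv (1 : ℤ) (t : ℤ) (c : ℤ) u)).card : ℝ) =
        (triples t c m k (u ^ 2 + t * u + c) : ℝ) := by
      rw [hqv]
      unfold triples Pool.Agent.V11296.CX.AT
      congr 2
    rw [hR] at hcard
    have hiff : ∀ d d' : ℕ, d ≠ 0 → d' ≠ 0 → (Pool.Agent.V11296.CW.H1 m k d +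
        Pool.Agent.V11296.CW.H2 m k d' =
        (((i : ZMod k), (j : ZMod k), ∑ b ∈ T, Pool.Agent.V11296.CV.ev m (b : ZMod m)) :
          Pool.Agent.V11296.CW.Bk m k) ↔ PairPattern m k i j T d d') :=
      fun d d' h1 h2 => Pool.Agent.V11296.CW.pair_iff d d' i j h1 h2 T
    obtain ⟨K, hKd⟩ : ∃ K : ℕ, K = Nat.card (Pool.Agent.V11296.CW.Dt t c m
      (Pool.Agent.V11296.CW.E1 t c m k) ((1, 1, 0) : Pool.Agent.V11296.CW.Bk m k)) := ⟨_, rfl⟩
    have hK : 1 ≤ K := by
      rw [hKd]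
      exact Nat.card_pos
    have hWS : Pool.Agent.V11296.EB.WnS t c
        (fun p : ℕ × ℕ => Pool.Agent.V11296.CW.H1 m k p.1 + Pool.Agent.V11296.CW.H2 m k p.2)
        (((i : ZMod k), (j : ZMod k), ∑ b ∈ T, Pool.Agent.V11296.CV.ev m (b : ZMod m)) :
          Pool.Agent.V11296.CW.Bk m k) K q u := by
      intro r s₁ s₂ s₃ s₄ h1 h2 h3 h4 h5 h6 ε hε
      have hal2 : Pool.Agent.V11296.CW.Alp t c m q u r
          (Pool.Agent.V11296.CW.E1 t c m k) ((1, 1, 0) : Pool.Agent.V11296.CW.Bk m k)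
          (Pool.Agent.V11296.CW.H1 m k) (Pool.Agent.V11296.CW.H2 m k)
          (((i : ZMod k), (j : ZMod k), ∑ b ∈ T, Pool.Agent.V11296.CV.ev m (b : ZMod m)) :
            Pool.Agent.V11296.CW.Bk m k) := by
        intro n d d' hn _ hde
        have hd : d ≠ 0 := fun h => by rw [h, Nat.zero_mul] at hde; omega
        have hd' : d' ≠ 0 := fun h => by rw [h, Nat.mul_zero] at hde; omega
        refine hal n d d' (by omega) (by omega) hn ?_
        have h9 : ((d * d' : ℕ) : ℤ) = ((n ^ 2 + t * n + c : ℕ) : ℤ) := by rw [hde]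
        push_cast at h9
        linarith
      have h7 := Pool.Agent.V11296.CX.nullSW (t := t) hF hg _ q u r hq
        hal2 s₁ s₂ s₃ s₄ h1 h2 h3 h4 h5 h6 ε hε
      refine Pool.Agent.TH890.DV.LogNull.of_ev 0 (fun X _ hX => ?_) h7
      refine lt_of_lt_of_eq hX ?_
      congr 1
      refine sum_congr rfl fun p _ => ?_
      unfold Pool.Agent.V11296.EB.dvS Pool.Agent.V11296.CX.phiS Pool.Agent.V11296.CX.phi
        Pool.Agent.V11296.CY.dv
      rw [hKd]
    have hcnt : ∀ X : ℕ, Pool.Agent.V11296.EB.cfS t c q u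
        (fun p : ℕ × ℕ => Pool.Agent.V11296.CW.H1 m k p.1 + Pool.Agent.V11296.CW.H2 m k p.2)
        (((i : ZMod k), (j : ZMod k), ∑ b ∈ T, Pool.Agent.V11296.CV.ev m (b : ZMod m)) :
          Pool.Agent.V11296.CW.Bk m k) X = count t c q u m k i j T X := by
      intro X
      unfold Pool.Agent.V11296.EB.cfS count
      congr 1
      refine filter_congr fun n _ => ?_
      have hne : ∀ d d' : ℕ, d * d' = n ^ 2 + t * n + c → d ≠ 0 ∧ d' ≠ 0 := by
        intro d d' h
        have h1 : d * d' ≠ 0 := by rw [h]; omega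
        exact ⟨left_ne_zero_of_mul h1, right_ne_zero_of_mul h1⟩
      constructor
      · rintro ⟨⟨h1, h2⟩, d, d', h3, h4, h5, h6⟩
        exact ⟨h1, h2, d, d', h3, h4, h5, (hiff d d' (hne d d' h5).1 (hne d d' h5).2).1 h6⟩
      · rintro ⟨h1, h2, d, d', h4, h5, h6, h7⟩
        exact ⟨⟨h1, h2⟩, d, d', h4, h5, h6, (hiff d d' (hne d d' h6).1 (hne d d' h6).2).2 h7⟩
    have hKR : (K : ℝ) = (triples t c m k (u ^ 2 + t * u + c) : ℝ) := by
      rw [hKd]
      exact hcard
    refine ⟨fun r s₁ s₂ s₃ s₄ h1 h2 h3 h4 h5 h6 ε hε => ?_, ?_, ?_⟩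
    · have h7 := hWS r s₁ s₂ s₃ s₄ h1 h2 h3 h4 h5 h6 ε hε
      refine Pool.Agent.TH890.DV.LogNull.of_ev 0 (fun X _ hX => ?_) h7
      refine lt_of_lt_of_eq hX ?_
      congr 1
      have h8 : pairs t c q u r s₁ s₂ s₃ s₄ X =
          (Pool.Agent.W78.EG.SW (t : ℤ) (c : ℤ) q u r s₁ s₂ s₃ s₄ X).filter
            (fun p => Squarefree (p.1 * p.2)) := by
        unfold pairs
        ext p
        rw [mem_filter, mem_filter, Pool.Agent.W251.EG.mem_SWn, mem_product, mem_Icc, mem_Icc]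
        constructor
        · rintro ⟨g1, g2, g3, g4, g5, g6, g7, n, g8, g9, g10⟩
          exact ⟨⟨g1, ⟨n, g8, g9, g10, g6⟩, g2, g3, g4, g5⟩, g7⟩
        · rintro ⟨⟨g1, ⟨n, g8, g9, g10, g6⟩, g2, g3, g4, g5⟩, g7⟩
          exact ⟨g1, g2, g3, g4, g5, g6, g7, n, g8, g9, g10⟩
      have h10 : (pairs t c q u r s₁ s₂ s₃ s₄ X).filter (fun p => PairPattern m k i j T p.1 p.2) =
          (pairs t c q u r s₁ s₂ s₃ s₄ X).filter (fun p => Pool.Agent.V11296.CW.H1 m k p.1 +
            Pool.Agent.V11296.CW.H2 m k p.2 =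
            (((i : ZMod k), (j : ZMod k), ∑ b ∈ T, Pool.Agent.V11296.CV.ev m (b : ZMod m)) :
              Pool.Agent.V11296.CW.Bk m k)) := by
        refine filter_congr fun p hp => ?_
        unfold pairs at hp
        rw [mem_filter, mem_product, mem_Icc, mem_Icc] at hp
        exact (hiff p.1 p.2 (by omega) (by omega)).symm
      rw [h10, h8]
      unfold Pool.Agent.V11296.EB.dvS Pool.Agent.V11296.CY.dv
      rw [← sum_filter, sum_sub_distrib, sum_const, nsmul_eq_mul, mul_comm (_ : ℝ), card_filter,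
        hKR]
      push_cast
      refine congrArg₂ (fun x y : ℝ => x - y) (sum_congr rfl fun p _ => ?_) rfl
      congr!
    · intro ε hε
      have h := Pool.Agent.V11296.EB.cntS hF hS hq hqu hK hWS ε hε
      refine Pool.Agent.TH890.DV.LogNull.of_ev 0 (fun X _ hX => ?_) h
      rw [hcnt]
      exact hX
    · intro δ hδ
      obtain ⟨N₀, hN₀⟩ := Pool.Agent.V11296.EB.cntSAll hF hS hq hqu hK hWS δ hδ
      refine ⟨N₀, fun X hX => ?_⟩
      have h := hN₀ X hX
      rw [hcnt] at h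
      exact h

end Pool.Agent.Results.MP_648c71_nt.SquarefreeClassPatterns
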