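import Pool.Agent.V11296.EB2

/-!
The Liouville function at the squarefree values of the nine quadratic polynomials `F(n) = n^2 + t n + c`,
`t` in `{0, 1}`, of discriminant `-3, -4, -7, -8, -11, -19, -43, -67, -163`, `n` in an arithmetic
progression: the joint distribution of the numbers of the prime factors modulo `k` and of sums over the
prime factors `p` of `F(n)` of a function `e(p, n)` which depends, in an arbitrary way, on `p` and on the
root `n mod p` of `F` modulo `p`.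

The starting files have the cancellation theorem `W251.EG.tsG` for products `g₁(d) g₂(d')` of functions
of integers over the factorisations `F(n) = d d'`, the bilinear estimate `W251.EG.mainyG` behind it,
the bound `W251.EG.tailc` for the squares of large primes, the lower bound `W251.EG.sps9` for the
number of the squarefree values and the passage from the pairs to the integers
`TH890.DV.cnt_core`. Our `ArbitraryRoots` of this problem is about all values, not only squarefree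
ones, and about the number of the prime factors with `n ≡ ρ(p) mod p`. The theorem is the one of our
`SquarefreeRootFunctions` (problem MP_892e4c_nt).
-/

set_option autoImplicit false

namespace Pool.Agent.Results.MP_648c71_nt.SquarefreeRootFunctions

open Finset Filter

open scoped Classical in
/-- the set of the positive integers `X` with `P X` has logarithmic density `0` -/
def LogNull (P : ℕ → Prop) : Prop :=
  Tendsto (fun Z : ℕ => (∑ X ∈ (Icc 1 Z).filter P, 1 / (X : ℝ)) / Real.log Z) atTop (nhds 0)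

/-- the nine pairs `(t, c)` with `t` in `{0, 1}` and `x^2+tx+c` of discriminant `-4`, `-8`, `-3`,
`-7`, `-11`, `-19`, `-43`, `-67`, `-163` -/
def nine : List (ℕ × ℕ) :=
  [(0, 1), (0, 2), (1, 1), (1, 2), (1, 3), (1, 5), (1, 11), (1, 17), (1, 41)]

/-- `e(p, n)` depends only on `n mod p`, and its values at two different roots modulo the prime `p` of
`x^2 + t x + c` have the sum `τ` -/
structure RootFunction {G : Type} [AddCommGroup G] (t c : ℕ) (e : ℕ → ℕ → G) (τ : G) : Prop where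
  per : ∀ p n n' : ℕ, n ≡ n' [MOD p] → e p n = e p n'
  sum : ∀ p n n' : ℕ, p.Prime → p ∣ n ^ 2 + t * n + c → p ∣ n' ^ 2 + t * n' + c →
    ¬ n ≡ n' [MOD p] → e p n + e p n' = τ

open scoped Classical in
/-- for every proper subgroup `S` of `G`, the primes `p` with two different roots `n`, `n'` modulo `p`
of `x^2 + t x + c` with `e(p, n) - e(p, n') ∈ S` have density `0` among the primes -/
def Generic {G : Type} [AddCommGroup G] (t c : ℕ) (e : ℕ → ℕ → G) : Prop :=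
  ∀ S : AddSubgroup G, S ≠ ⊤ → ∀ ε : ℝ, 0 < ε → ∃ N₀ : ℕ, ∀ N : ℕ, N₀ ≤ N →
    ∑ p ∈ (Icc 1 N).filter (fun p => p.Prime ∧ ∃ n n' : ℕ, p ∣ n ^ 2 + t * n + c ∧
      p ∣ n' ^ 2 + t * n' + c ∧ ¬ n ≡ n' [MOD p] ∧ e p n - e p n' ∈ S), Real.log p ≤ ε * N

/-- the sum of `e(p, n)` over the prime factors `p` of `n^2 + t n + c`, with multiplicity -/
def total {G : Type} [AddCommGroup G] (t c : ℕ) (e : ℕ → ℕ → G) (n : ℕ) : G :=
  ((n ^ 2 + t * n + c).primeFactorsList.map (fun p => e p n)).sum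

/-- the number of the prime factors of `n`, with multiplicity -/
def Omega (n : ℕ) : ℕ := n.primeFactorsList.length

open scoped Classical in
/-- the pairs `(d, d')` of positive integers with `s₁ X < d ≤ s₂ X`, `s₃ X < d' ≤ s₄ X`,
`d ≡ r mod q` and `d d' = n^2 + t n + c` squarefree for some `n ≥ 0`, `n + t > 0`, with
`n ≡ u mod q` and `Q n d d'` -/
noncomputable def pairs (t c q u r : ℕ) (s₁ s₂ s₃ s₄ : ℝ) (Q : ℕ → ℕ → ℕ → Prop) (X : ℕ) :
    Finset (ℕ × ℕ) :=
  ((Icc 1 X) ×ˢ (Icc 1 X)).filter (fun p => s₁ * X < (p.1 : ℝ) ∧ (p.1 : ℝ) ≤ s₂ * X ∧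
    s₃ * X < (p.2 : ℝ) ∧ (p.2 : ℝ) ≤ s₄ * X ∧ p.1 ≡ r [MOD q] ∧ Squarefree (p.1 * p.2) ∧
    ∃ n : ℕ, 1 ≤ n + t ∧ p.1 * p.2 = n ^ 2 + t * n + c ∧ n ≡ u [MOD q] ∧ Q n p.1 p.2)

open scoped Classical in
/-- the number of the integers `0 ≤ n ≤ X`, `n ≡ u mod q`, such that `n^2 + t n + c` is squarefree,
`total n = g`, and `n^2 + t n + c = d d'` with `d, d' ≤ X`, `Ω(d) ≡ i`, `Ω(d') ≡ j mod k` -/
noncomputable def count {G : Type} [AddCommGroup G] (t c : ℕ) (e : ℕ → ℕ → G) (q u k i j : ℕ)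
    (g : G) (X : ℕ) : ℕ :=
  ((range (X + 1)).filter (fun n : ℕ => n ≡ u [MOD q] ∧ Squarefree (n ^ 2 + t * n + c) ∧
    total t c e n = g ∧ ∃ d d' : ℕ, d ≤ X ∧ d' ≤ X ∧ d * d' = n ^ 2 + t * n + c ∧
      Omega d ≡ i [MOD k] ∧ Omega d' ≡ j [MOD k])).card

open scoped Classical in
/-- Let `F(n) = n^2 + t n + c` be one of the nine polynomials. Let `G` be a finite abelian group, `τ` in
`G`, and for every prime `p` and every residue class `n mod p` let `e(p, n)` in `G` be given, such that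
`e(p, n) + e(p, n') = τ` for any two different roots `n`, `n'` of `F` modulo `p`. Suppose that for every
proper subgroup `S` of `G` the primes with `e(p, n) - e(p, n') ∈ S` have density `0`. Let `Θ(n)` be the
sum of `e(p, n)` over the prime factors `p` of `F(n)`. Let `k, q ≥ 1` and let `l^2 ∤ F(u)` for all primes
`l` with `l^2 ∣ q`.

1. At least `c₁ X` pairs of integers `d, d' ≤ X` have `d d' = F(n)` squarefree with `n ≡ u mod q`, for
  some `c₁ > 0` and all large `X`.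

2. For all `i`, `j`, `r`, all `g` in `G` and all windows, and for all `X` outside a set of logarithmic
  density `0`: among the pairs `(d, d')` with `d d' = F(n)` squarefree, `n ≡ u mod q`, `d ≡ r mod q`,
  `s₁ X < d ≤ s₂ X`, `s₃ X < d' ≤ s₄ X`, the number of those with `Ω(d) ≡ i`, `Ω(d') ≡ j mod k` and
  `Θ(n) = g` is `1 / (k^2 |G|)` times the number of all, up to `ε X`.

3. For all `i`, `j`, `g` and every `ε > 0`, outside a set of `X` of logarithmic density `0`, there are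
  at least `X / (log X)^(log 2 + ε)` integers `n ≤ X`, `n ≡ u mod q`, with `F(n)` squarefree,
  `Θ(n) = g` and with a factorisation `F(n) = d d'`, `d, d' ≤ X`, `Ω(d) ≡ i`, `Ω(d') ≡ j mod k`; and
  for every `δ > 0` and all large `X` there are at least `X^(1-δ)` of them. -/
theorem result (t c : ℕ) (htc : (t, c) ∈ nine) (G : Type) [AddCommGroup G] [Finite G]
    (e : ℕ → ℕ → G) (τ : G) (he : RootFunction t c e τ) (hgen : Generic t c e) (k q u : ℕ)
    (hk : 1 ≤ k) (hq : 1 ≤ q)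
    (hqu : ∀ l : ℕ, l.Prime → l ^ 2 ∣ q → ¬ l ^ 2 ∣ u ^ 2 + t * u + c) :
    (∃ c₁ : ℝ, 0 < c₁ ∧ ∃ X₀ : ℕ, ∀ X : ℕ, X₀ ≤ X → c₁ * X ≤
      ((((Icc 1 X) ×ˢ (Icc 1 X)).filter (fun p : ℕ × ℕ => Squarefree (p.1 * p.2) ∧
        ∃ n : ℕ, p.1 * p.2 = n ^ 2 + t * n + c ∧ n ≡ u [MOD q])).card : ℝ)) ∧
    (∀ (i j : ℕ) (g : G) (r : ℕ) (s₁ s₂ s₃ s₄ : ℝ), 0 ≤ s₁ → s₁ < s₂ → s₂ ≤ 1 → 0 ≤ s₃ →
      s₃ < s₄ → s₄ ≤ 1 → ∀ ε : ℝ, 0 < ε → LogNull (fun X => ε * X <
        |((pairs t c q u r s₁ s₂ s₃ s₄ (fun n d d' => Omega d ≡ i [MOD k] ∧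
            Omega d' ≡ j [MOD k] ∧ total t c e n = g) X).card : ℝ) -
          1 / ((k : ℝ) ^ 2 * Nat.card G) *
            ((pairs t c q u r s₁ s₂ s₃ s₄ (fun _ _ _ => True) X).card : ℝ)|)) ∧
    (∀ (i j : ℕ) (g : G),
      (∀ ε : ℝ, 0 < ε → LogNull (fun X : ℕ => (count t c e q u k i j g X : ℝ) <
        (X : ℝ) / Real.log X ^ (Real.log 2 + ε))) ∧
      (∀ δ : ℝ, 0 < δ → ∃ X₀ : ℕ, ∀ X : ℕ, X₀ ≤ X →
        (X : ℝ) ^ (1 - δ) ≤ count t c e q u k i j g X)) := by
  obtain ⟨f, χ, hF⟩ := Pool.Agent.W251.EG.fd9 t c htc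
  have hS := Pool.Agent.W251.EG.sps9 t c htc
  have hR := Pool.Agent.W251.EG.hl9 t c htc hF
  have ht := Pool.Agent.W251.EG.t_le hF
  have hk0 : NeZero k := ⟨by omega⟩
  have hK : 1 ≤ k ^ 2 * Nat.card G := Nat.mul_pos (Nat.one_le_pow _ _ hk) Nat.card_pos
  have heV : Pool.Agent.V11296.EA.RV t c f e τ :=
    ⟨he.per, fun l n n' hl _ h1 h2 h3 => he.sum l n n' hl h1 h2 h3⟩
  have hgV : Pool.Agent.V11296.EA.GenV t c e := by
    intro S hS' ε hε
    obtain ⟨N₀, hN₀⟩ := hgen S hS' ε hε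
    exact ⟨N₀, fun N hN => hN₀ N hN⟩
  have hwV : ∀ (x : (ZMod k × ZMod k) × G) (q' u' : ℕ), 1 ≤ q' →
      Pool.Agent.V11296.CY.Wn t c (Pool.Agent.V11296.EA.HT c k e) x (k ^ 2 * Nat.card G) q' u' :=
    fun x q' u' hq' => Pool.Agent.V11296.EA.wn_V hF hR heV hgV k x hq' u'
  have hHT : ∀ d d' n : ℕ, d * d' = n ^ 2 + t * n + c → Pool.Agent.V11296.EA.HT c k e (d, d') =
      (((Omega d : ZMod k), (Omega d' : ZMod k)), total t c e n) := by
    intro d d' n hdd
    unfold Pool.Agent.V11296.EA.HT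
    rw [Pool.Agent.V11296.CY.nn_eq (p := (d, d')) ht (n := n) hdd]
    dsimp only
    rw [hdd]
    rfl
  have hiff : ∀ (d d' n : ℕ), d * d' = n ^ 2 + t * n + c → ∀ (i j : ℕ) (g : G),
      (Pool.Agent.V11296.EA.HT c k e (d, d') = (((i : ZMod k), (j : ZMod k)), g) ↔
        Omega d ≡ i [MOD k] ∧ Omega d' ≡ j [MOD k] ∧ total t c e n = g) := by
    intro d d' n hdd i j g
    rw [hHT d d' n hdd, ← ZMod.natCast_eq_natCast_iff, ← ZMod.natCast_eq_natCast_iff]
    constructor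
    · intro h1
      exact ⟨congrArg (fun x => x.1.1) h1, congrArg (fun x => x.1.2) h1, congrArg Prod.snd h1⟩
    · rintro ⟨h1, h2, h3⟩
      rw [h1, h2, h3]
  refine ⟨?_, fun i j g r s₁ s₂ s₃ s₄ h1 h2 h3 h4 h5 h6 ε hε => ?_, fun i j g => ?_⟩
  · obtain ⟨c₁, hc₁, X₀, h1⟩ := Pool.Agent.V11296.EB.lowPS hS hq u hqu
    refine ⟨c₁, hc₁, X₀, fun X hX => (h1 X hX).trans (Nat.cast_le.2 (card_le_card fun p hp => ?_))⟩
    rw [mem_filter, Pool.Agent.V11296.CY.mem_PPn] at hp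
    obtain ⟨⟨g1, g2, g3, g4, g5⟩, g7⟩ := hp
    rw [mem_filter, mem_product, mem_Icc, mem_Icc]
    exact ⟨⟨⟨g1, g2⟩, g3, g4⟩, g7, g5⟩
  · have h7 := Pool.Agent.V11296.EB.wnS_of hF (hwV (((i : ZMod k), (j : ZMod k)), g)) hq
      u r s₁ s₂ s₃ s₄ h1 h2 h3 h4 h5 h6 ε hε
    refine Pool.Agent.TH890.DV.LogNull.of_ev 0 (fun X _ hX => ?_) h7
    refine lt_of_lt_of_eq hX ?_
    congr 1
    have h8 : pairs t c q u r s₁ s₂ s₃ s₄ (fun _ _ _ => True) X =
        (Pool.Agent.W78.EG.SW (t : ℤ) (c : ℤ) q u r s₁ s₂ s₃ s₄ X).filter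
          (fun p => Squarefree (p.1 * p.2)) := by
      unfold pairs
      ext p
      rw [mem_filter, mem_filter, Pool.Agent.W251.EG.mem_SWn, mem_product, mem_Icc, mem_Icc]
      constructor
      · rintro ⟨g1, g2, g3, g4, g5, g6, g7, n, g8, g9, g10, _⟩
        exact ⟨⟨g1, ⟨n, g8, g9, g10, g6⟩, g2, g3, g4, g5⟩, g7⟩
      · rintro ⟨⟨g1, ⟨n, g8, g9, g10, g6⟩, g2, g3, g4, g5⟩, g7⟩
        exact ⟨g1, g2, g3, g4, g5, g6, g7, n, g8, g9, g10, trivial⟩
    have h9 : pairs t c q u r s₁ s₂ s₃ s₄ (fun n d d' => Omega d ≡ i [MOD k] ∧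
        Omega d' ≡ j [MOD k] ∧ total t c e n = g) X =
        (pairs t c q u r s₁ s₂ s₃ s₄ (fun _ _ _ => True) X).filter (fun p =>
          Pool.Agent.V11296.EA.HT c k e p = (((i : ZMod k), (j : ZMod k)), g)) := by
      unfold pairs
      ext p
      rw [mem_filter, mem_filter, mem_filter]
      constructor
      · rintro ⟨g1, g2, g3, g4, g5, g6, g7, n, g8, g9, g10, g11⟩
        exact ⟨⟨g1, g2, g3, g4, g5, g6, g7, n, g8, g9, g10, trivial⟩,
          (hiff p.1 p.2 n g9 i j g).2 g11⟩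
      · rintro ⟨⟨g1, g2, g3, g4, g5, g6, g7, n, g8, g9, g10, _⟩, g11⟩
        exact ⟨g1, g2, g3, g4, g5, g6, g7, n, g8, g9, g10,
          (hiff p.1 p.2 n g9 i j g).1 g11⟩
    rw [h9, h8]
    unfold Pool.Agent.V11296.EB.dvS Pool.Agent.V11296.CY.dv
    rw [← sum_filter, sum_sub_distrib, sum_const, nsmul_eq_mul, mul_comm (_ : ℝ), card_filter]
    push_cast
    refine congrArg₂ (fun x y : ℝ => x - y) (sum_congr rfl fun p _ => ?_) rfl
    congr!
  · have hWS := Pool.Agent.V11296.EB.wnS_of hF (hwV (((i : ZMod k), (j : ZMod k)), g)) hq u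
    have hcnt : ∀ X : ℕ, Pool.Agent.V11296.EB.cfS t c q u
        (Pool.Agent.V11296.EA.HT c k e) (((i : ZMod k), (j : ZMod k)), g) X =
        count t c e q u k i j g X := by
      intro X
      unfold Pool.Agent.V11296.EB.cfS count
      congr 1
      refine filter_congr fun n _ => ?_
      constructor
      · rintro ⟨⟨h1, h2⟩, d, d', h3, h4, h5, h6⟩
        have h7 := (hiff d d' n h5 i j g).1 h6
        exact ⟨h1, h2, h7.2.2, d, d', h3, h4, h5, h7.1, h7.2.1⟩
      · rintro ⟨h1, h2, h3, d, d', h4, h5, h6, h7, h8⟩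
        exact ⟨⟨h1, h2⟩, d, d', h4, h5, h6, (hiff d d' n h6 i j g).2 ⟨h7, h8, h3⟩⟩
    constructor
    · intro ε hε
      have h := Pool.Agent.V11296.EB.cntS hF hS hq hqu hK hWS ε hε
      refine Pool.Agent.TH890.DV.LogNull.of_ev 0 (fun X _ hX => ?_) h
      rw [hcnt]
      exact hX
    · intro δ hδ
      obtain ⟨N₀, hN₀⟩ := Pool.Agent.V11296.EB.cntSAll hF hS hq hqu hK hWS δ hδ
      refine ⟨N₀, fun X hX => ?_⟩
      have h := hN₀ X hX
      rw [hcnt] at h
      exact h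

end Pool.Agent.Results.MP_648c71_nt.SquarefreeRootFunctions
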